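import Mathlib
import Pool.Agent.PC.Final
import Pool.Agent.PC.Reservoir
import Pool.Agent.PC.Switch

set_option autoImplicit false

/-!
# The number of prime circles (MP_ec65ab_co, Q1)

`numPrimeCircles m` is the number `N(m)` of prime circles of order `2m` up to rotation and
reflection (`Pool/Agent/PrimeCircle/Defs.lean`). The theorem says
`N(m) = ((2/e + o(1)) m / log m)^(2m)`, that is
`log N(m) = 2 m log m - 2 m log log m + (2 log 2 - 2) m + o(m)`.
-/

namespace Pool.Agent.PC.Old.Asymptotics

open Filter Pool.Agent.PrimeCircle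

/-- The `2m`-th root of the number of prime circles of order `2m` is asymptotic to
`(2/e) m / log m`. -/
theorem result :
    Tendsto (fun m : ℕ => (numPrimeCircles m : ℝ) ^ (1 / (2 * m : ℝ)) * Real.log m / m) atTop
      (nhds (2 / Real.exp 1)) :=
  Pool.Agent.PC.final_of (Pool.Agent.PC.few_cycles Pool.Agent.PC.pg_PA)
    (Pool.Agent.PC.reservoir Pool.Agent.PC.pg_PA)

end Pool.Agent.PC.Old.Asymptotics
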